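import Pool.Agent.H98.CP.St

set_option autoImplicit false

/-! Modules StHalf, StPair, StAdd. -/

namespace Pool.Agent.H6.CP

open Finset ComplexConjugate H95.CP H67.CM Pool.Agent.H98.CP

lemma Psi_congr {M : ℕ} {h h' : ℕ → G M → ℝ} {b : ℕ} (hh' : ∀ a < b, h a = h' a) :
    Psi h b = Psi h' b := by
  funext x
  unfold Psi
  refine Finset.prod_congr rfl (fun a ha => ?_)
  rw [hh' a (Finset.mem_range.1 ha)]

lemma Rg_large {M u j a : ℕ} (hr : Rg M u a) (hL : Lg M j) :
    Large j a ∧ Large j (M + u - a) := by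
  obtain ⟨h1, _, _, h4⟩ := hr
  unfold Lg at hL
  unfold Large
  exact ⟨hL.trans (Nat.pow_le_pow_right (by norm_num) h1),
    hL.trans (Nat.pow_le_pow_right (by norm_num) h4)⟩

lemma Rg_dvd {M u a : ℕ} (hr : Rg M u a) :
    8 ^ (a + 1) ∣ LL M ∧ 8 ^ (M + u - a + 1) ∣ LL M := by
  obtain ⟨_, h2, h3, _⟩ := hr
  unfold LL
  exact ⟨Nat.pow_dvd_pow 8 (by omega), Nat.pow_dvd_pow 8 (by omega)⟩

theorem half : StHalf := by
  intro M u j J l0 sg act h hRS hL a x
  by_cases ha : a ∈ act
  · obtain ⟨η, hη, hx⟩ := hRS.adm a ha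
    have hr := hRS.rng a ha
    obtain ⟨l1, l2⟩ := Rg_large hr hL
    obtain ⟨d1, d2⟩ := Rg_dvd hr
    rw [hx x]
    exact abs_hh_le l1 l2 d1 d2 η hη.1 x
  · rw [hRS.off a ha x, abs_zero]
    norm_num

theorem pair : StPair := by
  intro M j b c F Ψ η
  have h := E_mul_hh (L := LL M) (k := j) (b := b) (c := c) (cx (fun x => F x * Ψ x)) η
  have h1 : E (fun x => cx (fun x => F x * Ψ x) x * (hh j b c η x : ℂ))
      = ((ER (fun x => F x * (Ψ x * hh j b c η x)) : ℝ) : ℂ) := by
    rw [← E_ofReal]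
    congr 1
    funext x
    unfold cx
    push_cast
    ring
  rw [h1] at h
  have h2 := congrArg Complex.re h
  rw [Complex.ofReal_re] at h2
  rw [h2]
  have h3 : (1 / (2 * (CV j : ℂ))) = ((1 / (2 * CV j) : ℝ) : ℂ) := by push_cast; rfl
  rw [h3, Complex.re_ofReal_mul]
  congr 1
  unfold tst avg avgR
  have h4 : (1 / (((8 ^ (b + 1) : ℕ) : ℂ) * ((8 ^ (c + 1) : ℕ) : ℂ)))
      = ((1 / (((8 ^ (b + 1) : ℕ) : ℝ) * ((8 ^ (c + 1) : ℕ) : ℝ)) : ℝ) : ℂ) := by
    push_cast; rfl
  rw [h4, Complex.re_ofReal_mul]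
  congr 1
  rw [Complex.re_sum]
  refine Finset.sum_congr rfl (fun i _ => ?_)
  rw [Complex.re_ofReal_mul]
  rfl

theorem add : StAdd := by
  intro M u j J l0 sg act h b η hRS hE hJ hA
  have hlt : ∀ a ∈ act, a < b := fun a ha => by
    have := hE.gap a ha
    omega
  refine ⟨?_, ?_, ?_, ?_, ?_⟩
  · intro a ha
    rcases Finset.mem_insert.1 ha with rfl | ha
    · exact hE.rng
    · exact hRS.rng a ha
  · intro a ha
    rcases Finset.mem_insert.1 ha with rfl | ha
    · exact hE.alw
    · exact hRS.alw a ha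
  · intro a ha a' ha' haa
    rcases Finset.mem_insert.1 ha with h1 | h1
    · rcases Finset.mem_insert.1 ha' with h2 | h2
      · omega
      · have := hlt a' h2
        omega
    · rcases Finset.mem_insert.1 ha' with h2 | h2
      · rw [h2]
        exact hE.gap a h1
      · exact hRS.gap a h1 a' h2 haa
  · intro a ha x
    have hab : a ≠ b := fun hab => ha (hab ▸ Finset.mem_insert_self b act)
    rw [Function.update_of_ne hab]
    exact hRS.off a (fun h1 => ha (Finset.mem_insert_of_mem h1)) x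
  · intro a ha
    have hPsi : ∀ a' ≤ b, Psi (Function.update h b (fun x => hh j b (M + u - b) η x)) a'
        = Psi h a' := by
      intro a' ha'
      apply Psi_congr
      intro i hi
      rw [Function.update_of_ne (by omega)]
    rcases Finset.mem_insert.1 ha with rfl | ha
    · refine ⟨η, ?_, ?_⟩
      · rw [hPsi a le_rfl]
        exact hA
      · intro x
        rw [Function.update_self]
    · obtain ⟨η', h1, h2⟩ := hRS.adm a ha
      have hab := hlt a ha
      refine ⟨η', ?_, ?_⟩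
      · rw [hPsi a hab.le]
        exact h1
      · intro x
        rw [Function.update_of_ne hab.ne]
        exact h2 x

end Pool.Agent.H6.CP
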