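import Pool.Agent.H98.CP.St
import Pool.Agent.H74.CM.Active

set_option autoImplicit false

/-! Module StTop: the highest level. -/

namespace Pool.Agent.H6.CP

open Finset ComplexConjugate H95.CP H67.CM H74.CM Pool.Agent.H98.CP

lemma TH_mono {i j : ℕ} (h : i ≤ j) : TH i ≤ TH j := by
  unfold TH
  exact pow_le_pow_right₀ (by norm_num) (by omega)

lemma TH_pos (j : ℕ) : 0 < TH j := by unfold TH; positivity

lemma card_G (M : ℕ) : (Fintype.card (G M) : ℝ) = 8 ^ (2 * M + 4) := by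
  rw [Fintype.card_prod, ZMod.card]
  push_cast
  rw [← pow_add]
  congr 1
  omega

/-- the size of the top level -/
lemma top_TH (A : ℝ) (j0 M : ℕ) (hM : 1 ≤ M) (hj : 36 * A ^ 2 ≤ 8 ^ (16 * j0)) :
    36 * A ^ 2 * (M : ℝ) ^ 3 ≤ TH (j0 + Nat.size M) := by
  have h1 : (M : ℝ) ≤ 8 ^ Nat.size M := by
    have h2 : M < 2 ^ Nat.size M := Nat.lt_size_self M
    have h3 : (2 : ℕ) ^ Nat.size M ≤ 8 ^ Nat.size M := Nat.pow_le_pow_left (by norm_num) _
    exact_mod_cast (h2.le.trans h3)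
  have hM1 : (1 : ℝ) ≤ M := by exact_mod_cast hM
  have h4 : (M : ℝ) ^ 3 ≤ (8 ^ Nat.size M) ^ 16 := by
    calc (M : ℝ) ^ 3 ≤ (M : ℝ) ^ 16 := pow_le_pow_right₀ hM1 (by norm_num)
      _ ≤ _ := pow_le_pow_left₀ (by linarith) h1 16
  have h5 : TH (j0 + Nat.size M) = 8 ^ (16 * j0) * (8 ^ Nat.size M) ^ 16 := by
    unfold TH
    rw [← pow_mul, ← pow_add]
    congr 1
    ring
  rw [h5]
  exact mul_le_mul hj h4 (by positivity) (by positivity)

theorem top : StTop := by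
  intro A hA
  obtain ⟨j1, hj1⟩ := pow_unbounded_of_one_lt (36 * A ^ 2) (show (1 : ℝ) < 8 ^ 16 by norm_num)
  refine ⟨j1, fun j0 M hj0 hBig S hS => ?_⟩
  classical
  have hMbig : 1000 ≤ M := by
    unfold Big at hBig
    omega
  have hM1 : (1 : ℝ) ≤ M := by
    have : 1 ≤ M := by omega
    exact_mod_cast this
  set J0 := j0 + Nat.size M with hJ0
  have hTH : 36 * A ^ 2 * (M : ℝ) ^ 3 ≤ TH J0 := by
    refine top_TH A j0 M (by omega) ?_
    calc 36 * A ^ 2 ≤ (8 ^ 16) ^ j1 := hj1.le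
      _ ≤ (8 ^ 16) ^ j0 := pow_le_pow_right₀ (by norm_num) hj0
      _ = 8 ^ (16 * j0) := by rw [← pow_mul]
  have hTHp : 0 < TH J0 := TH_pos J0
  set θ : ℝ := Real.sqrt (TH J0 / 8 ^ M) with hθ
  have hθ2 : θ ^ 2 = TH J0 / 8 ^ M := Real.sq_sqrt (by positivity)
  have hθp : 0 < θ := Real.sqrt_pos.2 (by positivity)
  set R : ℝ := A * M with hR
  have hRp : 0 < R := by positivity
  have h8M : (0 : ℝ) < 8 ^ M := by positivity
  -- r
  set r : ℕ := ⌊(8 : ℝ) ^ M / (36 * M)⌋₊ with hr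
  have h36 : (36 : ℝ) * M ≤ 8 ^ M := by
    have h1 : 36 * M ≤ 8 ^ M := by
      have h2 : M < 2 ^ M := Nat.lt_two_pow_self
      have h3 : 2 ^ 6 ≤ 2 ^ M := Nat.pow_le_pow_right (by norm_num) (by omega)
      have h4 : (8 : ℕ) ^ M = 2 ^ M * 2 ^ M * 2 ^ M := by
        rw [show (8 : ℕ) = 2 * 2 * 2 by norm_num, mul_pow, mul_pow]
      rw [h4]
      have h5 : 1 ≤ 2 ^ M := Nat.one_le_two_pow
      have h6 : 36 * M ≤ 2 ^ M * 2 ^ M := Nat.mul_le_mul (by omega) h2.le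
      calc 36 * M ≤ 2 ^ M * 2 ^ M := h6
        _ = 2 ^ M * 2 ^ M * 1 := (mul_one _).symm
        _ ≤ _ := Nat.mul_le_mul_left _ h5
    exact_mod_cast h1
  have hrpos : 0 < r := by
    rw [hr, Nat.floor_pos, le_div_iff₀ (by positivity)]
    linarith
  have hrle : (r : ℝ) ≤ 8 ^ M / (36 * M) := Nat.floor_le (by positivity)
  have hrle' : (r : ℝ) * (36 * M) ≤ 8 ^ M := by
    rwa [le_div_iff₀ (by positivity)] at hrle
  have hr1 : (1 : ℝ) ≤ r := by exact_mod_cast hrpos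
  obtain ⟨PP, hPP, hPP'⟩ := refine_code_set (Mu := G M) (fun _ => 0) (fun _ => 0) θ R hθp r hrpos
  -- number of large coefficients
  have hkey : ∀ w ∈ S, ∃ q ∈ PP, ∀ k,
      (q k ≠ 0 → θ < ‖co2 (cx w.g) k‖) ∧ ‖co2 (cx w.g) k - q k‖ ≤ θ := by
    intro w hw
    have hbd : ∀ x, |w.g x| ≤ R := hS w hw
    have hsum : ∑ k : G M, ‖co2 (cx w.g) k‖ ^ 2 ≤ R ^ 2 := by
      rw [← parseval]
      have h1 : ER (fun x => ‖cx w.g x‖ ^ 2) ≤ ER (fun _ : G M => R ^ 2) := by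
        apply ER_mono
        intro x
        have h2 : ‖cx w.g x‖ = |w.g x| := by
          unfold cx
          rw [Complex.norm_real, Real.norm_eq_abs]
        rw [h2]
        exact pow_le_pow_left₀ (abs_nonneg _) (hbd x) 2
      rwa [ER_const] at h1
    have hone : ∀ k, ‖co2 (cx w.g) k‖ ≤ R := by
      intro k
      have h1 : ‖co2 (cx w.g) k‖ ^ 2 ≤ R ^ 2 :=
        (Finset.single_le_sum (f := fun k => ‖co2 (cx w.g) k‖ ^ 2) (fun _ _ => sq_nonneg _)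
          (Finset.mem_univ k)).trans hsum
      exact le_of_sq_le_sq h1 hRp.le
    set E := Finset.univ.filter (fun k : G M => θ < ‖co2 (cx w.g) k‖) with hE
    have hEcard : (E.card : ℝ) * θ ^ 2 ≤ R ^ 2 := by
      refine le_trans ?_ hsum
      calc (E.card : ℝ) * θ ^ 2 = ∑ _k ∈ E, θ ^ 2 := by rw [Finset.sum_const, nsmul_eq_mul]
        _ ≤ ∑ k ∈ E, ‖co2 (cx w.g) k‖ ^ 2 := by
            refine Finset.sum_le_sum (fun k hk => ?_)
            rw [hE, Finset.mem_filter] at hk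
            exact pow_le_pow_left₀ hθp.le hk.2.le 2
        _ ≤ _ := Finset.sum_le_sum_of_subset_of_nonneg (Finset.subset_univ _)
            (fun _ _ _ => sq_nonneg _)
    have hEr : E.card ≤ r := by
      rw [hr]
      apply Nat.le_floor
      rw [le_div_iff₀ (by positivity)]
      rw [hθ2] at hEcard
      have h1 : (E.card : ℝ) * TH J0 ≤ R ^ 2 * 8 ^ M := by
        have h2 : (E.card : ℝ) * (TH J0 / 8 ^ M) * 8 ^ M = (E.card : ℝ) * TH J0 := by
          field_simp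
        rw [← h2]
        exact mul_le_mul_of_nonneg_right hEcard h8M.le
      have h3 : (E.card : ℝ) * (36 * A ^ 2 * (M : ℝ) ^ 3) ≤ (A * M) ^ 2 * 8 ^ M :=
        (mul_le_mul_of_nonneg_left hTH (by positivity)).trans h1
      have h4 : (A * (M : ℝ)) ^ 2 * ((E.card : ℝ) * (36 * M)) ≤ (A * M) ^ 2 * 8 ^ M := by
        calc (A * (M : ℝ)) ^ 2 * ((E.card : ℝ) * (36 * M))
            = (E.card : ℝ) * (36 * A ^ 2 * (M : ℝ) ^ 3) := by ring
          _ ≤ _ := h3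
      exact le_of_mul_le_mul_left h4 (by positivity)
    obtain ⟨q, hq, hq1, hq2⟩ := hPP' (co2 (cx w.g)) E
      (fun k _ => by rw [sub_zero]; exact hone k) hEr
    refine ⟨q, hq, fun k => ?_⟩
    by_cases hk : k ∈ E
    · refine ⟨fun _ => (Finset.mem_filter.1 hk).2, hq1 k hk⟩
    · have h1 := hq2 k hk
      refine ⟨fun h => absurd h1 h, ?_⟩
      rw [h1, sub_zero]
      by_contra hcon
      push Not at hcon
      exact hk (Finset.mem_filter.2 ⟨Finset.mem_univ _, hcon⟩)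
  choose! psi hpsi1 hpsi2 using hkey
  refine ⟨psi, Kraft.of_card PP hpsi1 _ ?_, ?_⟩
  · refine hPP.trans ?_
    rw [card_G]
    have hRθ : R / θ ≤ 8 ^ M := by
      rw [div_le_iff₀ hθp]
      have h1 : R ^ 2 ≤ (8 ^ M * θ) ^ 2 := by
        rw [mul_pow (8 ^ M) θ, hθ2]
        have h2 : ((8 : ℝ) ^ M) ^ 2 * (TH J0 / 8 ^ M) = 8 ^ M * TH J0 := by
          field_simp
        rw [h2, hR]
        have h3 : (A * (M : ℝ)) ^ 2 ≤ 36 * A ^ 2 * (M : ℝ) ^ 3 := by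
          have h4 : (A * (M : ℝ)) ^ 2 * 1 ≤ (A * (M : ℝ)) ^ 2 * (36 * M) :=
            mul_le_mul_of_nonneg_left (by linarith) (by positivity)
          calc (A * (M : ℝ)) ^ 2 = (A * (M : ℝ)) ^ 2 * 1 := (mul_one _).symm
            _ ≤ (A * (M : ℝ)) ^ 2 * (36 * M) := h4
            _ = _ := by ring
        calc (A * (M : ℝ)) ^ 2 ≤ TH J0 := h3.trans hTH
          _ = 1 * TH J0 := (one_mul _).symm
          _ ≤ 8 ^ M * TH J0 := mul_le_mul_of_nonneg_right (one_le_pow₀ (by norm_num)) hTHp.le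
      exact le_of_sq_le_sq h1 (by positivity)
    have hceil : ((⌈R / θ⌉₊ : ℕ) : ℝ) ≤ 8 ^ M := by
      have h1 : ⌈R / θ⌉₊ ≤ 8 ^ M := by
        rw [Nat.ceil_le]
        push_cast
        exact hRθ
      exact_mod_cast h1
    have h1M : (1 : ℝ) ≤ 8 ^ M := one_le_pow₀ (by norm_num)
    have hin : Real.exp 1 * ((8 : ℝ) ^ (2 * M + 4) * (2 * (⌈R / θ⌉₊ : ℝ) + 3) ^ 2 + 1 + r) / r
        ≤ 2 ^ (36 * M) := by
      have h2 : (2 * ((⌈R / θ⌉₊ : ℕ) : ℝ) + 3) ^ 2 ≤ (8 * 8 ^ M) ^ 2 :=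
        pow_le_pow_left₀ (by positivity) (by linarith) 2
      have h3 : (r : ℝ) ≤ 8 ^ M := by
        refine le_trans ?_ hrle'
        calc (r : ℝ) = r * 1 := (mul_one _).symm
          _ ≤ r * (36 * M) := mul_le_mul_of_nonneg_left (by linarith) (by positivity)
      have h4 : Real.exp 1 ≤ 3 := by
        have := Real.exp_one_lt_d9
        linarith
      have h5 : (8 : ℝ) ^ (2 * M + 4) * (8 * 8 ^ M) ^ 2 = 8 ^ (4 * M + 6) := by
        rw [mul_pow, ← pow_mul, ← pow_add, ← pow_add]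
        congr 1
        ring
      have h6 : (8 : ℝ) ^ M ≤ 8 ^ (4 * M + 6) := pow_le_pow_right₀ (by norm_num) (by omega)
      have h7 : (8 : ℝ) ^ (2 * M + 4) * (2 * (⌈R / θ⌉₊ : ℝ) + 3) ^ 2 + 1 + r
          ≤ 3 * 8 ^ (4 * M + 6) := by
        have h8 := mul_le_mul_of_nonneg_left h2 (show (0 : ℝ) ≤ 8 ^ (2 * M + 4) by positivity)
        rw [h5] at h8
        linarith
      have h9 : (0 : ℝ) ≤ (8 : ℝ) ^ (2 * M + 4) * (2 * (⌈R / θ⌉₊ : ℝ) + 3) ^ 2 + 1 + r := by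
        positivity
      calc Real.exp 1 * ((8 : ℝ) ^ (2 * M + 4) * (2 * (⌈R / θ⌉₊ : ℝ) + 3) ^ 2 + 1 + r) / r
          ≤ Real.exp 1 * ((8 : ℝ) ^ (2 * M + 4) * (2 * (⌈R / θ⌉₊ : ℝ) + 3) ^ 2 + 1 + r) / 1 := by
            apply div_le_div_of_nonneg_left (by positivity) one_pos hr1
        _ ≤ 3 * (3 * 8 ^ (4 * M + 6)) := by
            rw [div_one]
            exact mul_le_mul h4 h7 h9 (by norm_num)
        _ ≤ 8 ^ (4 * M + 8) := by
            rw [pow_add (8 : ℝ) (4 * M) 8, pow_add (8 : ℝ) (4 * M) 6]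
            have : (0 : ℝ) < 8 ^ (4 * M) := by positivity
            nlinarith
        _ = 2 ^ (3 * (4 * M + 8)) := by
            rw [pow_mul]
            norm_num
        _ ≤ 2 ^ (36 * M) := pow_le_pow_right₀ (by norm_num) (by omega)
    have h0 : (0 : ℝ) ≤ Real.exp 1 *
        ((8 : ℝ) ^ (2 * M + 4) * (2 * (⌈R / θ⌉₊ : ℝ) + 3) ^ 2 + 1 + r) / r := by positivity
    calc (Real.exp 1 * ((8 : ℝ) ^ (2 * M + 4) * (2 * (⌈R / θ⌉₊ : ℝ) + 3) ^ 2 + 1 + r) / r) ^ r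
        ≤ ((2 : ℝ) ^ (36 * M)) ^ r := pow_le_pow_left₀ h0 hin r
      _ = (2 : ℝ) ^ (((36 * M * r : ℕ) : ℝ)) := by
          rw [Real.rpow_natCast, ← pow_mul]
      _ ≤ (2 : ℝ) ^ ((8 : ℝ) ^ M) := by
          apply Real.rpow_le_rpow_of_exponent_le (by norm_num)
          push_cast
          linarith
  · intro w hw
    refine ⟨fun k hk => ?_, fun b u _ _ k _ => ?_⟩
    · have h1 := (hpsi2 w hw k).1 hk
      by_contra hcon
      rw [w.spec k hcon, norm_zero] at h1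
      linarith
    · have h1 := (hpsi2 w hw k).2
      have h2 : ‖co2 (cx w.g) k - psi w k‖ ^ 2 ≤ θ ^ 2 := pow_le_pow_left₀ (norm_nonneg _) h1 2
      refine h2.trans ?_
      rw [hθ2]
      exact div_le_div_of_nonneg_right (TH_mono (le_max_left _ _)) h8M.le

end Pool.Agent.H6.CP
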